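import Mathlib

/-! Ramanujan Cayley graphs of `SL(3, p)` from the projective plane over the field with `p ^ 4`
elements. -/

open Finset Matrix

set_option linter.unusedSectionVars false

namespace Pool.Agent.Lib.MP_c5b21d_co

section Group
variable {G : Type} [Group G] [Fintype G]

theorem spec (w : G → ℝ) {r μ : ℝ} (hr : 0 ≤ r) (hw : ∀ g, 0 ≤ w g) {f : G → ℝ} (h0 : f ≠ 0)
    (H : ∑ h, (∑ g, w g * f (h * g)) ^ 2 ≤ r ^ 2 * ∑ h, f h ^ 2)
    (e : ∀ h, ∑ g, (w g + w g⁻¹ - w g * w g⁻¹) * f (h * g) = μ * f h) :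
    |μ| ≤ 2 * r + ∑ g, w g * w g⁻¹ := by
  obtain ⟨N, hN⟩ : ∃ N, N = ∑ h, f h ^ 2 := ⟨_, rfl⟩
  have N0 : 0 < N := by
    obtain ⟨x, hx⟩ := Function.ne_iff.1 h0
    exact hN ▸ sum_pos' (fun _ _ => sq_nonneg _) ⟨x, mem_univ _, sq_pos_of_ne_zero hx⟩
  obtain ⟨c, hc⟩ : ∃ c : G → ℝ, ∀ g, c g = ∑ h, f h * f (h * g) := ⟨_, fun _ => rfl⟩
  have c1 : ∀ g, c g⁻¹ = c g := fun g => by
    rw [hc, hc, ← Equiv.sum_comp (Equiv.mulRight g)]
    simp [mul_comm]
  have c2 : ∀ g, |c g| ≤ N := fun g => by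
    refine abs_le_of_sq_le_sq ?_ N0.le
    have := sum_mul_sq_le_sq_mul_sq univ f fun h => f (h * g)
    rw [show ∑ h, f (h * g) ^ 2 = N from hN ▸ Equiv.sum_comp (Equiv.mulRight g) fun h => f h ^ 2,
      ← hN, ← hc] at this
    rwa [pow_two N]
  have k : ∀ v : G → ℝ, ∑ g, v g * c g = ∑ h, f h * ∑ g, v g * f (h * g) := fun v => by
    simp only [hc, mul_sum]
    rw [sum_comm]
    exact sum_congr rfl fun _ _ => sum_congr rfl fun _ _ => by ring
  have b1 : |∑ g, w g * c g| ≤ r * N := by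
    refine abs_le_of_sq_le_sq ?_ (by positivity)
    rw [k]
    refine (sum_mul_sq_le_sq_mul_sq _ _ _).trans ?_
    rw [← hN] at H ⊢
    nlinarith
  have b2 : ∑ g, w g⁻¹ * c g = ∑ g, w g * c g := by
    rw [← Equiv.sum_comp (Equiv.inv G)]
    simp [c1]
  have b3 : |∑ g, w g * w g⁻¹ * c g| ≤ (∑ g, w g * w g⁻¹) * N := by
    rw [sum_mul]
    refine (abs_sum_le_sum_abs _ _).trans (sum_le_sum fun g _ => ?_)
    rw [abs_mul, abs_of_nonneg (mul_nonneg (hw _) (hw _))]
    exact mul_le_mul_of_nonneg_left (c2 g) (mul_nonneg (hw _) (hw _))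
  have b4 : μ * N = 2 * ∑ g, w g * c g - ∑ g, w g * w g⁻¹ * c g := by
    have := k fun g => w g + w g⁻¹ - w g * w g⁻¹
    simp only [e] at this
    simp only [add_mul, sub_mul, sum_sub_distrib, sum_add_distrib, b2] at this
    rw [two_mul, this, hN, mul_sum]
    exact sum_congr rfl fun _ _ => by ring
  refine le_of_mul_le_mul_right ?_ N0
  have b5 : |μ| * N = |μ * N| := by rw [abs_mul, abs_of_pos N0]
  rw [b5, b4, abs_le]
  rw [abs_le] at b1 b3
  constructor <;> linarith [b1.1, b1.2, b3.1, b3.2]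

end Group

section Count
variable {E : Type} [Field E] [Fintype E] [DecidableEq E]

theorem card_ker {k : ℕ} (M : Matrix (Fin k) (Fin 3) E) (h : LinearIndependent E M.row) :
    (univ.filter fun y : Fin 3 → E => M *ᵥ y = 0).card = Fintype.card E ^ (3 - k) := by
  have h1 := LinearMap.finrank_range_add_finrank_ker M.mulVecLin
  have h2 : Module.finrank E (LinearMap.range M.mulVecLin) = k :=
    h.rank_matrix.trans (Fintype.card_fin k)
  rw [h2, Module.finrank_fin_fun] at h1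
  rw [← Fintype.card_subtype, show 3 - k = _ from (Nat.eq_sub_of_add_eq' h1).symm,
    ← Nat.card_eq_fintype_card, ← Nat.card_eq_fintype_card, ← Module.natCard_eq_pow_finrank]
  rfl

/-- The indicator of orthogonality. -/
def ind (y u : Fin 3 → E) : ℝ := if y ⬝ᵥ u = 0 then 1 else 0

theorem ind_nonneg (y u : Fin 3 → E) : 0 ≤ ind y u := by
  unfold ind
  split_ifs <;> norm_num

theorem ind_smul {c : E} (hc : c ≠ 0) (y u : Fin 3 → E) : ind (c • y) u = ind y u := by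
  simp [ind, hc]

theorem sum_ind {u : Fin 3 → E} (hu : u ≠ 0) : ∑ y, ind y u = (Fintype.card E : ℝ) ^ 2 := by
  have := card_ker (of ![u]) (linearIndependent_unique_iff.2 hu)
  simp only [ind, sum_boole]
  rw [← Nat.cast_pow, ← this]
  congr 2
  ext y
  simp [funext_iff, dotProduct_comm]

theorem sum_ind_two {u v : Fin 3 → E} (hu : u ≠ 0) (h : ∀ c : E, c • u ≠ v) :
    ∑ y, ind y u * ind y v = (Fintype.card E : ℝ) := by
  have := card_ker (of ![u, v]) (by
    change LinearIndependent E ![u, v]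
    exact (LinearIndependent.pair_iff' hu).2 h)
  simp only [ind, ite_zero_mul_ite_zero, one_mul, sum_boole]
  rw [← pow_one (Fintype.card E), ← this]
  congr 2
  ext y
  simp [funext_iff, dotProduct_comm, Fin.forall_fin_two]

variable {G : Type} [Fintype G] [DecidableEq G] {pt : G → Fin 3 → E}

theorem sum_ind_pt (h0 : ∀ g, pt g ≠ 0) (h1 : ∀ g g' (c : E), c • pt g = pt g' → g = g') (g g' : G) :
    ∑ y, ind y (pt g) * ind y (pt g') =
      Fintype.card E + if g = g' then (Fintype.card E : ℝ) ^ 2 - Fintype.card E else 0 := by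
  split_ifs with e
  · rw [add_sub_cancel, ← sum_ind (h0 g), ← e]
    exact sum_congr rfl fun y _ => by unfold ind; split_ifs <;> norm_num
  · rw [add_zero, sum_ind_two (h0 g) fun c k => e (h1 g g' c k)]

theorem variance (h0 : ∀ g, pt g ≠ 0) (h1 : ∀ g g' (c : E), c • pt g = pt g' → g = g')
    (f : G → ℝ) : ∑ y, (∑ g, ind y (pt g) * f g - (∑ g, f g) / Fintype.card E) ^ 2 =
      ((Fintype.card E : ℝ) ^ 2 - Fintype.card E) * ∑ g, f g ^ 2 := by
  have q0 : (Fintype.card E : ℝ) ≠ 0 := by positivity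
  have a1 : ∑ y, ∑ g, ind y (pt g) * f g = (Fintype.card E : ℝ) ^ 2 * ∑ g, f g := by
    rw [sum_comm, mul_sum]
    exact sum_congr rfl fun g _ => by rw [← sum_mul, sum_ind (h0 g)]
  have a2 : ∑ y, (∑ g, ind y (pt g) * f g) ^ 2 = Fintype.card E * (∑ g, f g) ^ 2 +
      ((Fintype.card E : ℝ) ^ 2 - Fintype.card E) * ∑ g, f g ^ 2 := by
    simp only [pow_two (∑ _, _), sum_mul_sum]
    simp only [mul_sum]
    rw [sum_comm, ← sum_add_distrib]
    refine sum_congr rfl fun g _ => ?_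
    rw [sum_comm]
    have : ∀ g', ∑ y, ind y (pt g) * f g * (ind y (pt g') * f g') =
        (∑ y, ind y (pt g) * ind y (pt g')) * (f g * f g') := fun g' => by
      rw [sum_mul]
      exact sum_congr rfl fun _ _ => by ring
    simp only [this, sum_ind_pt h0 h1, add_mul, sum_add_distrib, ite_mul, zero_mul, sum_ite_eq,
      mem_univ, if_true, pow_two (f g)]
  simp only [sub_sq, sum_add_distrib, sum_sub_distrib, a2, sum_const, card_univ, Fintype.card_fun,
    Fintype.card_fin, nsmul_eq_mul, mul_assoc, ← mul_sum, ← sum_mul, a1]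
  push_cast
  field_simp
  ring

theorem restrict {ln : G → Fin 3 → E}
    (h1 : ∀ g g' (c c' : E), c ≠ 0 → c • ln g = c' • ln g' → g = g' ∧ c = c')
    {Ψ : (Fin 3 → E) → ℝ} (h2 : ∀ y, 0 ≤ Ψ y) (h3 : ∀ (c : E) y, c ≠ 0 → Ψ (c • y) = Ψ y) :
    ((Fintype.card E : ℝ) - 1) * ∑ g, Ψ (ln g) ≤ ∑ y, Ψ y := by
  have a : ∑ z : G × Eˣ, Ψ ((z.2 : E) • ln z.1) = ((Fintype.card E : ℝ) - 1) * ∑ g, Ψ (ln g) := by
    rw [Fintype.sum_prod_type, mul_sum]
    refine sum_congr rfl fun g _ => ?_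
    simp only [h3 _ _ (Units.ne_zero _), sum_const, card_univ, Fintype.card_units, nsmul_eq_mul]
    rw [Nat.cast_pred Fintype.card_pos]
  rw [← a, ← sum_image (g := fun z : G × Eˣ => (z.2 : E) • ln z.1) (f := Ψ) fun z _ z' _ e =>
    Prod.ext (h1 _ _ _ _ z.2.ne_zero e).1 (Units.ext (h1 _ _ _ _ z.2.ne_zero e).2)]
  exact sum_le_sum_of_subset_of_nonneg (subset_univ _) fun y _ _ => h2 y

end Count

section Main
variable {E : Type} [Field E] [Fintype E] [DecidableEq E] {G : Type} [Group G] [Fintype G]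
  [DecidableEq G] {pt ln : G → Fin 3 → E}

theorem exists_set (h0 : ∀ g, pt g ≠ 0) (h1 : ∀ g g' (c : E), c • pt g = pt g' → g = g')
    (h2 : ∀ g g' (c c' : E), c ≠ 0 → c • ln g = c' • ln g' → g = g' ∧ c = c')
    (h3 : ∀ h a g, ln (h * a) ⬝ᵥ pt (h * g) = ln a ⬝ᵥ pt g) {r M n Q t : ℝ} (hr : 0 ≤ r)
    (hM : 0 ≤ M) (hn : n = Fintype.card G) (hQ : Q = Fintype.card E) (hq : Q = r ^ 2)
    (ht : ((univ.filter fun g : G => g = g⁻¹).card : ℝ) ≤ t)
    (hb : n * Q + (t + M) * Q ^ 2 < (Q - 1) * (n * M)) :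
    ∃ S : Finset G, (∀ s ∈ S, s⁻¹ ∈ S) ∧ 1 ∉ S ∧ 2 * (n / Q - r) - M ≤ S.card ∧
      S.card ≤ 2 * (n / Q + r) ∧ ∀ (μ : ℝ) (f : G → ℝ), f ≠ 0 → ∑ g, f g = 0 →
        (∀ h, ∑ s ∈ S, f (h * s) = μ * f h) → |μ| ≤ 2 * r + M := by
  have q1 : 1 < Q := hQ ▸ Nat.one_lt_cast.2 Fintype.one_lt_card
  have n0 : 0 < n := hn ▸ Nat.cast_pos.2 Fintype.card_pos
  have key : ∀ a (f : G → ℝ), ∑ h, (∑ g, ind (ln a) (pt g) * f (h * g) - (∑ g, f g) / Q) ^ 2 ≤
      Q * ∑ g, f g ^ 2 := fun a f => by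
    have := restrict h2 (Ψ := fun y => (∑ g, ind y (pt g) * f g - (∑ g, f g) / Fintype.card E) ^ 2)
      (fun _ => sq_nonneg _) fun c y hc => by simp only [ind_smul hc]
    rw [variance h0 h1, ← hQ, ← Equiv.sum_comp (Equiv.mulRight a)] at this
    refine le_of_mul_le_mul_left (le_of_eq_of_le ?_ (this.trans_eq (by ring))) (sub_pos.2 q1)
    refine congrArg _ (sum_congr rfl fun h _ => ?_)
    rw [← Equiv.sum_comp (Equiv.mulLeft h) fun g => ind _ (pt g) * f g]
    simp only [Equiv.coe_mulLeft, Equiv.coe_mulRight, ind, h3]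
  have nn : ∀ y, 0 ≤ ∑ g, ind y (pt g) * ind y (pt g⁻¹) := fun y =>
    sum_nonneg fun _ _ => mul_nonneg (ind_nonneg _ _) (ind_nonneg _ _)
  obtain ⟨a, -, ha⟩ : ∃ a ∈ univ, ∑ g, ind (ln a) (pt g) * ind (ln a) (pt g⁻¹) +
      M * ind (ln a) (pt 1) < M := by
    have := restrict h2 (Ψ := fun y => ∑ g, ind y (pt g) * ind y (pt g⁻¹) + M * ind y (pt 1))
      (fun y => add_nonneg (nn y) (mul_nonneg hM (ind_nonneg _ _)))
      fun c y hc => by simp only [ind_smul hc]
    rw [sum_add_distrib (s := (univ : Finset (Fin 3 → E))), ← mul_sum, sum_ind (h0 1), sum_comm]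
      at this
    simp only [sum_ind_pt h0 h1, ← hQ, sum_add_distrib (f := fun _ => Q), ← sum_filter, sum_const,
      card_univ, nsmul_eq_mul, ← hn] at this
    refine exists_lt_of_sum_lt (lt_of_mul_lt_mul_left (this.trans_lt ?_) (sub_pos.2 q1).le)
    rw [sum_const, card_univ, nsmul_eq_mul, ← hn]
    refine lt_of_le_of_lt ?_ hb
    have a1 : (0 : ℝ) ≤ (univ.filter fun g : G => g = g⁻¹).card := Nat.cast_nonneg _
    nlinarith [mul_le_mul_of_nonneg_right ht (sq_nonneg Q)]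
  have a0 := mul_nonneg hM (ind_nonneg (ln a) (pt 1))
  have e : ∀ φ : G → ℝ, ∑ s ∈ univ.filter fun g => ln a ⬝ᵥ pt g = 0 ∨ ln a ⬝ᵥ pt g⁻¹ = 0, φ s =
      ∑ g, (ind (ln a) (pt g) + ind (ln a) (pt g⁻¹) - ind (ln a) (pt g) * ind (ln a) (pt g⁻¹)) *
        φ g := fun φ => by
    rw [sum_filter]
    refine sum_congr rfl fun g _ => ?_
    by_cases c : ln a ⬝ᵥ pt g = 0 <;> by_cases d : ln a ⬝ᵥ pt g⁻¹ = 0 <;> simp [ind, c, d]
  have c1 := e fun _ => 1
  have c2 := key a fun _ => 1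
  simp only [mul_one, sum_const, card_univ, nsmul_eq_mul, ← hn, one_pow, sum_sub_distrib,
    sum_add_distrib] at c1 c2
  have c3 : ∑ g, ind (ln a) (pt g⁻¹) = ∑ g, ind (ln a) (pt g) :=
    Equiv.sum_comp (Equiv.inv G) fun g => ind (ln a) (pt g)
  have c4 := abs_le_of_sq_le_sq' (le_of_mul_le_mul_left
    (c2.trans_eq ((mul_comm _ _).trans (congrArg _ hq))) n0) hr
  refine ⟨univ.filter fun g => ln a ⬝ᵥ pt g = 0 ∨ ln a ⬝ᵥ pt g⁻¹ = 0, by simp [or_comm], ?_, ?_, ?_,
    fun μ f f0 f1 f2 => ?_⟩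
  · simp only [mem_filter, mem_univ, true_and, inv_one, or_self]
    intro c
    rw [ind, if_pos c] at ha
    linarith [nn (ln a)]
  · linarith [c4.1]
  · linarith [c4.2, nn (ln a)]
  · have := key a f
    simp only [f1, zero_div, sub_zero] at this
    have := spec (fun g => ind (ln a) (pt g)) hr (fun _ => ind_nonneg _ _) f0 (hq ▸ this)
      fun h => (e _).symm.trans (f2 h)
    linarith

theorem ramanujan {S : Finset G} {b : ℝ} (hb : b < S.card)
    (h : ∀ (μ : ℝ) (f : G → ℝ), f ≠ 0 → ∑ g, f g = 0 → (∀ h, ∑ s ∈ S, f (h * s) = μ * f h) →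
      |μ| ≤ b) :
    Subgroup.closure (S : Set G) = ⊤ ∧ ∀ (μ : ℝ) (f : G → ℝ), f ≠ 0 →
      (∀ h, ∑ s ∈ S, f (h * s) = μ * f h) → μ ≠ S.card → |μ| ≤ b := by
  classical
  refine ⟨by_contra fun c => ?_, fun μ f f0 f1 f2 => h μ f f0 ?_ f1⟩
  · obtain ⟨x, hx⟩ : ∃ x, x ∉ Subgroup.closure (S : Set G) := by
      simpa [Subgroup.eq_top_iff'] using c
    obtain ⟨u, hu⟩ : ∃ u : G → ℝ, ∀ g, u g = if g ∈ Subgroup.closure (S : Set G) then 1 else 0 :=
      ⟨_, fun _ => rfl⟩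
    refine hb.not_ge ((le_abs_self _).trans (h _ (fun g => u g - (∑ g, u g) / Fintype.card G)
      (fun e => ?_) ?_ fun g => ?_))
    · have e1 := (congrFun e 1).trans (congrFun e x).symm
      simp [hu, hx] at e1
    · rw [sum_sub_distrib, sum_const, card_univ, nsmul_eq_mul, mul_div_cancel₀ _ (by positivity),
        sub_self]
    · rw [← nsmul_eq_mul, ← sum_const]
      refine sum_congr rfl fun s hs => ?_
      simp only [hu, Subgroup.mul_mem_cancel_right _ (Subgroup.subset_closure (mem_coe.2 hs))]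
  · have := sum_congr rfl fun h (_ : h ∈ univ) => f1 h
    rw [sum_comm, sum_congr rfl fun s _ => show ∑ h, f (h * s) = _ from
      Equiv.sum_comp (Equiv.mulRight s) f, sum_const, nsmul_eq_mul, ← mul_sum] at this
    exact (mul_eq_mul_right_iff.1 this).resolve_left f2.symm

end Main

section SL
variable {F E : Type} [Field F] [Field E] [Algebra F E] {θ : E}

/-- The powers `1, θ, θ ^ 2, θ ^ 3` are linearly independent. -/
def Ind (F : Type) {E : Type} [Field F] [Field E] [Algebra F E] (θ : E) : Prop :=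
  ∀ a b c d : F, algebraMap F E a + algebraMap F E b * θ + algebraMap F E c * θ ^ 2 +
    algebraMap F E d * θ ^ 3 = 0 → a = 0 ∧ b = 0 ∧ c = 0 ∧ d = 0

theorem eig (hθ : Ind F θ) (h3 : ∀ a : F, a ^ 3 = 1 → a = 1) {A : Matrix (Fin 3) (Fin 3) F}
    (hA : A.det = 1) {c : E} (h : A.map (algebraMap F E) *ᵥ ![1, θ, θ ^ 2] = c • ![1, θ, θ ^ 2]) :
    A = 1 := by
  have r0 := congrFun h 0
  have r1 := congrFun h 1
  have r2 := congrFun h 2
  simp [mulVec, dotProduct, Fin.sum_univ_three] at r0 r1 r2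
  obtain ⟨a1, a2, a3, a4⟩ := hθ (A 1 0) (A 1 1 - A 0 0) (A 1 2 - A 0 1) (-A 0 2) (by
    simp only [map_sub, map_neg]
    linear_combination r1 - θ * r0)
  obtain ⟨b1, b2, b3, b4⟩ := hθ (A 2 0) (A 2 1 - A 1 0) (A 2 2 - A 1 1) (-A 1 2) (by
    simp only [map_sub, map_neg]
    linear_combination r2 - θ * r1)
  rw [neg_eq_zero] at a4 b4
  rw [sub_eq_zero] at a2 a3 b2 b3
  have e : A 0 0 = 1 := h3 _ (by
    rw [det_fin_three, b3, a2, b2, a1, b1, ← a3, a4, b4] at hA
    linear_combination hA)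
  rw [eta_fin_three A, one_fin_three, b3, a2, b2, a1, b1, ← a3, a4, b4, e]

/-- Extension of scalars. -/
def ρ (E : Type) [Field E] [Algebra F E] :
    SpecialLinearGroup (Fin 3) F →* Matrix (Fin 3) (Fin 3) E :=
  (algebraMap F E).mapMatrix.toMonoidHom.comp SpecialLinearGroup.coeMonoidHom

theorem eig_pt (hθ : Ind F θ) (h3 : ∀ a : F, a ^ 3 = 1 → a = 1) {g : SpecialLinearGroup (Fin 3) F}
    {c : E} (h : ρ E g *ᵥ ![1, θ, θ ^ 2] = c • ![1, θ, θ ^ 2]) : g = 1 :=
  Subtype.ext (eig hθ h3 g.2 h)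

theorem eig_ln (hθ : Ind F θ) (h3 : ∀ a : F, a ^ 3 = 1 → a = 1) {g : SpecialLinearGroup (Fin 3) F}
    {c : E} (h : ![1, θ, θ ^ 2] ᵥ* ρ E g = c • ![1, θ, θ ^ 2]) : g = 1 :=
  Subtype.ext (transpose_injective ((eig hθ h3 ((det_transpose _).trans g.2)
    (by rw [transpose_map, mulVec_transpose]; exact h)).trans transpose_one.symm))

theorem invol (h2 : (2 : F) ≠ 0) {g : SpecialLinearGroup (Fin 3) F} (h : g = g⁻¹) (h1 : g ≠ 1) :
    ∃ i, (g.1 + 1) i i ≠ 0 ∧ ∀ j k, (g.1 + 1) j k * (g.1 + 1) i i = (g.1 + 1) j i * (g.1 + 1) i k := by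
  have a : g.1 = adjugate g.1 := congrArg Subtype.val h
  have b : g.1 * g.1 = 1 := congrArg Subtype.val (mul_eq_one_iff_eq_inv.2 h : g * g = 1)
  rw [adjugate_fin_three] at a
  simp only [← Matrix.ext_iff, Fin.forall_fin_succ, mul_apply, Fin.sum_univ_three] at a b
  simp at a b
  obtain ⟨⟨a00, a01, a02⟩, ⟨a10, a11, a12⟩, a20, a21, a22⟩ := a
  obtain ⟨⟨b00, b01, b02⟩, ⟨b10, b11, b12⟩, b20, b21, b22⟩ := b
  have t : g.1 0 0 + g.1 1 1 + g.1 2 2 + 1 = 0 := by
    by_contra t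
    refine h1 (Subtype.ext (show g.1 = (1 : Matrix _ _ F) from ?_))
    ext i j
    refine mul_left_cancel₀ t ?_
    fin_cases i <;> fin_cases j <;> simp only [Fin.zero_eta, Fin.mk_one, Fin.reduceFinMk,
      one_apply, Fin.reduceEq, if_true, if_false]
    · linear_combination b00 - a11 - a22
    · linear_combination b01 + a01
    · linear_combination b02 + a02
    · linear_combination b10 + a10
    · linear_combination b11 - a00 - a22
    · linear_combination b12 + a12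
    · linear_combination b20 + a20
    · linear_combination b21 + a21
    · linear_combination b22 - a00 - a11
  have m : ∀ i j k, (g.1 + 1) j k * (g.1 + 1) i i = (g.1 + 1) j i * (g.1 + 1) i k := by
    intro i j k
    fin_cases i <;> fin_cases j <;> fin_cases k <;> simp only [Fin.zero_eta, Fin.mk_one,
      Fin.reduceFinMk, Matrix.add_apply, one_apply, Fin.reduceEq, if_true, if_false] <;>
    first | ring1 | linear_combination t - a00 | linear_combination t - a11 |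
      linear_combination t - a22 | linear_combination a01 | linear_combination a02 |
      linear_combination a10 | linear_combination a12 | linear_combination a20 |
      linear_combination a21
  by_contra c
  simp only [not_exists, not_and] at c
  have c' : ∀ i, g.1 i i + 1 = 0 := fun i => by simpa using not_not.1 fun e => c i e (m i)
  exact h2 (by linear_combination c' 0 + c' 1 + c' 2 - t)

variable [Fintype F] [DecidableEq F]

theorem card_invol (h2 : (2 : F) ≠ 0) :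
    (univ.filter fun g : SpecialLinearGroup (Fin 3) F => g = g⁻¹).card ≤
      3 * Fintype.card F ^ 5 + 1 := by
  refine (card_le_card (t := insert 1 (univ.biUnion fun i : Fin 3 => univ.filter
    fun g : SpecialLinearGroup (Fin 3) F => (g.1 + 1) i i ≠ 0 ∧
      ∀ j k, (g.1 + 1) j k * (g.1 + 1) i i = (g.1 + 1) j i * (g.1 + 1) i k)) fun g hg => ?_).trans
    ((card_insert_le _ _).trans (Nat.succ_le_succ (card_biUnion_le_card_mul _ _ _ fun i _ => ?_)))
  · rw [mem_insert, or_iff_not_imp_left]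
    intro c
    obtain ⟨i, hi⟩ := invol h2 (mem_filter.1 hg).2 c
    exact mem_biUnion.2 ⟨i, mem_univ _, mem_filter.2 ⟨mem_univ _, hi⟩⟩
  · refine (card_le_card_of_injOn (t := univ) (fun g => ((g.1 + 1) i,
      fun j : Fin 2 => (g.1 + 1) (i.succAbove j) i)) (fun _ _ => mem_coe.2 (mem_univ _))
      fun g hg g' hg' e => ?_).trans_eq (by simp [← pow_add])
    obtain ⟨a, b⟩ := (mem_filter.1 hg).2
    obtain ⟨e1, e2⟩ := Prod.mk.inj e
    have e3 : ∀ j, (g.1 + 1) j i = (g'.1 + 1) j i := fun j => by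
      rcases Fin.eq_self_or_eq_succAbove i j with rfl | ⟨l, rfl⟩
      exacts [congrFun e1 _, congrFun e2 l]
    refine Subtype.ext (add_right_cancel (b := 1) (Matrix.ext fun j k => mul_right_cancel₀ a ?_))
    rw [b, e3 j, e1, (mem_filter.1 hg').2.2]

theorem card_SL : (Fintype.card (SpecialLinearGroup (Fin 3) F) : ℝ) =
    (Fintype.card F : ℝ) ^ 3 * ((Fintype.card F : ℝ) ^ 2 - 1) * ((Fintype.card F : ℝ) ^ 3 - 1) := by
  have h1 : Nat.card (SpecialLinearGroup (Fin 3) F) =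
      Nat.card (GeneralLinearGroup.det : GL (Fin 3) F →* Fˣ).ker :=
    Nat.card_congr (Equiv.ofBijective (fun A => ⟨SpecialLinearGroup.toGL A, by simp⟩)
      ⟨fun A B h => SpecialLinearGroup.toGL_injective (congrArg Subtype.val h),
        fun A => ⟨⟨A.1, congrArg Units.val A.2⟩, Subtype.ext (Units.ext rfl)⟩⟩)
  have h2 := Subgroup.card_mul_index (GeneralLinearGroup.det : GL (Fin 3) F →* Fˣ).ker
  rw [Subgroup.index_ker, MonoidHom.range_eq_top.2 GeneralLinearGroup.det_surjective,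
    Subgroup.card_top, Nat.card_units, card_GL_field, ← h1, Nat.card_eq_fintype_card,
    Nat.card_eq_fintype_card, Fin.prod_univ_three] at h2
  have q1 := Fintype.one_lt_card (α := F)
  have c : ∀ i ≤ 3, ((Fintype.card F ^ 3 - Fintype.card F ^ i : ℕ) : ℝ) =
      (Fintype.card F : ℝ) ^ 3 - (Fintype.card F : ℝ) ^ i := fun i hi => by
    rw [Nat.cast_sub (Nat.pow_le_pow_right q1.le hi), Nat.cast_pow, Nat.cast_pow]
  have h3 := congrArg (Nat.cast : ℕ → ℝ) h2
  rw [Nat.cast_mul, Nat.cast_mul, Nat.cast_mul, c _ (by simp), c _ (by simp), c _ (by simp),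
    Nat.cast_pred (by omega)] at h3
  refine mul_right_cancel₀ (sub_ne_zero.2 (Nat.cast_ne_one.2 q1.ne')) (h3.trans ?_)
  simp only [Fin.val_zero, Fin.val_one, Fin.val_two]
  ring

theorem main [Fintype E] (hθ : Ind F θ) (h3 : ∀ a : F, a ^ 3 = 1 → a = 1) (h2 : (2 : F) ≠ 0)
    (hE : Fintype.card E = Fintype.card F ^ 4) (hF : 11 ≤ Fintype.card F) :
    ∃ S : Finset (SpecialLinearGroup (Fin 3) F), (∀ s ∈ S, s⁻¹ ∈ S) ∧ 1 ∉ S ∧
      Subgroup.closure (S : Set (SpecialLinearGroup (Fin 3) F)) = ⊤ ∧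
      S.card ≤ 2 * Fintype.card F ^ 4 ∧ ∀ (μ : ℝ) (f : SpecialLinearGroup (Fin 3) F → ℝ), f ≠ 0 →
        (∀ g, ∑ s ∈ S, f (g * s) = μ * f g) → μ ≠ S.card → |μ| ≤ 2 * √(S.card - 1) := by
  classical
  obtain ⟨x, x0, hx⟩ : ∃ x : ℝ, 0 ≤ x ∧ (Fintype.card F : ℝ) = x + 11 :=
    ⟨(Fintype.card F : ℝ) - 11, sub_nonneg.2 (by exact_mod_cast hF), by ring⟩
  have v0 : ∀ c c' : E, c • ![1, θ, θ ^ 2] = c' • ![1, θ, θ ^ 2] → c = c' := fun c c' e => by
    simpa using congrFun e 0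
  obtain ⟨S, s1, s2, s3, s4, s5⟩ := exists_set (E := E) (pt := fun g => ρ E g *ᵥ ![1, θ, θ ^ 2])
    (ln := fun g : SpecialLinearGroup (Fin 3) F => ![1, θ, θ ^ 2] ᵥ* ρ E g⁻¹)
    (r := (x + 11) ^ 2) (M := 4 * (x + 11)) (Q := (x + 11) ^ 4) (t := 3 * (x + 11) ^ 5 + 1)
    (n := (x + 11) ^ 3 * ((x + 11) ^ 2 - 1) * ((x + 11) ^ 3 - 1))
    (fun g e => by
      obtain rfl := eig_pt hθ h3 (e.trans (zero_smul E _).symm)
      simpa using congrFun e 0)
    (fun g g' c e => by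
      have := congrArg (ρ E g⁻¹ *ᵥ ·) e
      simp only [mulVec_smul, mulVec_mulVec, ← map_mul, inv_mul_cancel, map_one, one_mulVec] at this
      exact inv_mul_eq_one.1 (eig_pt hθ h3 this.symm))
    (fun g g' c c' hc e => by
      have := congrArg (· ᵥ* ρ E g') e
      simp only [smul_vecMul, vecMul_vecMul, ← map_mul, inv_mul_cancel, map_one, vecMul_one] at this
      obtain rfl := inv_mul_eq_one.1 (eig_ln hθ h3 (c := c⁻¹ * c')
        (by rw [mul_smul, ← this, inv_smul_smul₀ hc]))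
      rw [inv_mul_cancel, map_one, vecMul_one] at this
      exact ⟨rfl, v0 _ _ this⟩)
    (fun h a g => by
      simp only [← dotProduct_mulVec, mulVec_mulVec, ← map_mul, _root_.mul_inv_rev, mul_assoc,
        inv_mul_cancel_left])
    (by positivity) (by positivity) (by rw [card_SL, hx]) (by rw [hE, Nat.cast_pow, hx]) (by ring)
    (by rw [← hx]; exact_mod_cast card_invol h2)
    (by rw [← sub_pos]; ring_nf; positivity)
  have e : (x + 11) ^ 3 * ((x + 11) ^ 2 - 1) * ((x + 11) ^ 3 - 1) / (x + 11) ^ 4 =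
      (x + 11) ^ 4 - (x + 11) ^ 2 - (x + 11) + (x + 11)⁻¹ := by
    field_simp
    ring
  have i0 : 0 ≤ (x + 11)⁻¹ := by positivity
  have i1 : (x + 11)⁻¹ ≤ 1 := inv_le_one_of_one_le₀ (by linarith)
  rw [e] at s3 s4
  have a1 : 0 ≤ (x + 11) ^ 4 - 4 * (x + 11) ^ 3 - 8 * (x + 11) ^ 2 - 6 * (x + 11) - 1 := by
    ring_nf
    positivity
  have a2 : (x + 11) ^ 2 + 2 * (x + 11) ≤ √(S.card - 1) :=
    Real.le_sqrt_of_sq_le (by linarith)
  obtain ⟨t1, t2⟩ := ramanujan (S := S) (b := 2 * (x + 11) ^ 2 + 4 * (x + 11))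
    (by nlinarith [pow_nonneg (show 0 ≤ x + 11 by linarith) 3, sq_nonneg (x + 11)]) s5
  refine ⟨S, s1, s2, t1, ?_, fun μ f f0 f1 f2 => (t2 μ f f0 f1 f2).trans (by linarith)⟩
  have : (S.card : ℝ) ≤ 2 * (Fintype.card F : ℝ) ^ 4 := by
    rw [hx]
    linarith
  exact_mod_cast this

end SL

theorem main_p (p : ℕ) [hp : Fact p.Prime] (h3 : p % 3 = 2) (h5 : 5 < p) :
    ∃ S : Finset (SpecialLinearGroup (Fin 3) (ZMod p)), (∀ s ∈ S, s⁻¹ ∈ S) ∧ 1 ∉ S ∧
      Subgroup.closure (S : Set (SpecialLinearGroup (Fin 3) (ZMod p))) = ⊤ ∧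
      S.card ≤ 2 * p ^ 4 ∧ ∀ (μ : ℝ) (f : SpecialLinearGroup (Fin 3) (ZMod p) → ℝ), f ≠ 0 →
        (∀ g, ∑ s ∈ S, f (g * s) = μ * f g) → μ ≠ S.card → |μ| ≤ 2 * √(S.card - 1) := by
  have := Fintype.ofFinite (GaloisField p 4)
  obtain ⟨θ, d, b, hb⟩ := Field.powerBasisOfFiniteOfSeparable (ZMod p) (GaloisField p 4)
  obtain rfl : d = 4 := by
    simpa [GaloisField.finrank p four_ne_zero] using (Module.finrank_eq_card_basis b).symm
  have h11 : 11 ≤ p := by
    by_contra c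
    obtain rfl : p = 8 := by omega
    exact absurd hp.out (by decide)
  have := main (F := ZMod p) (θ := θ) (fun a0 a1 a2 a3 e => ?_) (fun a e => ?_) (fun e => ?_)
    (by rw [ZMod.card, ← Nat.card_eq_fintype_card, GaloisField.card p 4 four_ne_zero])
    (by rwa [ZMod.card])
  · rwa [ZMod.card] at this
  · have := Fintype.linearIndependent_iff.1 b.linearIndependent ![a0, a1, a2, a3]
      (by simpa [Fin.sum_univ_four, hb, Algebra.smul_def] using e)
    exact ⟨this 0, this 1, this 2, this 3⟩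
  · have a0 : a ≠ 0 := fun c => by simp [c] at e
    have := ZMod.pow_card_sub_one_eq_one a0
    rwa [show p - 1 = 3 * (p / 3) + 1 by omega, pow_succ, pow_mul, e, one_pow, one_mul] at this
  · have := Nat.le_of_dvd two_pos ((ZMod.natCast_eq_zero_iff 2 p).1 (by exact_mod_cast e))
    omega

end Pool.Agent.Lib.MP_c5b21d_co
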